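import Mathlib
import Pool.Agent.MP_abea68_an.General

open Set Filter Topology Ordinal

namespace Pool.Agent.Results.MP_abea68_an.NoSPREmbedding

open Pool.Agent.MP_abea68_an

/-- The ordinal interval `[1, ω^ω]`. -/
abbrev K : Type 1 := Set.Icc (1 : Ordinal.{0}) (ω ^ ω)

/-- `T` is a linear isomorphic embedding of `C(X)` into itself: linear and `c ‖f‖ ≤ ‖T f‖ ≤ d ‖f‖`
with `c > 0`. Linear isometric embeddings are the special case `c = d = 1`. -/
def IsIsomorphicEmbedding {X : Type*} [TopologicalSpace X] [CompactSpace X]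
    (T : C(X, ℝ) → C(X, ℝ)) : Prop :=
  IsLinearMap ℝ T ∧ ∃ c d : ℝ, 0 < c ∧ ∀ f, c * ‖f‖ ≤ ‖T f‖ ∧ ‖T f‖ ≤ d * ‖f‖

/-- `E` does stable phase retrieval in `C(X)` (`|f|` is the lattice absolute value). -/
def DoesSPR {X : Type*} [TopologicalSpace X] [CompactSpace X] (E : Set C(X, ℝ)) : Prop :=
  ∃ C : ℝ, 1 ≤ C ∧ ∀ f ∈ E, ∀ g ∈ E, min ‖f - g‖ ‖f + g‖ ≤ C * ‖|f| - |g|‖

instance : TotallyDisconnectedSpace K := by
  have : TotallySeparatedSpace K := by
    rw [totallySeparatedSpace_iff_exists_isClopen]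
    have key : ∀ x y : K, x < y → ∃ U : Set K, IsClopen U ∧ x ∈ U ∧ y ∈ Uᶜ := by
      intro x y hxy
      refine ⟨{z | z.1 ≤ x.1}, ⟨?_, ?_⟩, le_refl x.1, not_le.2 hxy⟩
      · exact isClosed_le continuous_subtype_val continuous_const
      · have : {z : K | z.1 ≤ x.1} = {z : K | z.1 < Order.succ x.1} := by
          ext z; simp [Order.lt_succ_iff]
        rw [this]
        exact isOpen_lt continuous_subtype_val continuous_const
    intro x y hxy
    rcases lt_or_gt_of_ne hxy with h | h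
    · exact key x y h
    · obtain ⟨U, hU, hy, hx⟩ := key y x h
      exact ⟨Uᶜ, hU.compl, hx, by simpa using hy⟩
  infer_instance

lemma acc_iff (y : K) (A : Set K) :
    AccPt y (𝓟 A) ↔ ∀ z : Ordinal.{0}, z < y.1 → ∃ a ∈ A, z < a.1 ∧ a.1 < y.1 := by
  rw [accPt_iff_nhds]
  constructor
  · intro h z hz
    have hU : {x : K | z < x.1 ∧ x.1 < Order.succ y.1} ∈ 𝓝 y := by
      apply IsOpen.mem_nhds
      · exact (isOpen_lt continuous_const continuous_subtype_val).inter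
          (isOpen_lt continuous_subtype_val continuous_const)
      · exact ⟨hz, Order.lt_succ _⟩
    obtain ⟨a, ⟨⟨h1, h2⟩, haA⟩, hne⟩ := h _ hU
    refine ⟨a, haA, h1, ?_⟩
    exact lt_of_le_of_ne (Order.lt_succ_iff.1 h2) (fun h => hne (Subtype.ext h))
  · intro h U hU
    rw [nhds_subtype_eq_comap, mem_comap] at hU
    obtain ⟨W, hW, hWU⟩ := hU
    have h0 : (0 : Ordinal.{0}) < y.1 := lt_of_lt_of_le zero_lt_one y.2.1
    obtain ⟨l, hl, hlW⟩ := exists_Ioc_subset_of_mem_nhds hW ⟨0, h0⟩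
    obtain ⟨a, haA, h1, h2⟩ := h l hl
    exact ⟨a, ⟨hWU (hlW ⟨h1, h2.le⟩), haA⟩, fun h => absurd (congrArg Subtype.val h) h2.ne⟩

lemma mem_D (n : ℕ) : ∀ y : K, y ∈ D K n ↔ (ω : Ordinal.{0}) ^ (n : Ordinal.{0}) ∣ y.1 := by
  induction n with
  | zero => intro y; simp [D]
  | succ n ih =>
    intro y
    have hωn : (ω : Ordinal.{0}) ^ (n : Ordinal.{0}) ≠ 0 := (Ordinal.opow_pos _ omega0_pos).ne'
    have hsucc : (ω : Ordinal.{0}) ^ ((n + 1 : ℕ) : Ordinal.{0}) = ω ^ (n : Ordinal.{0}) * ω := by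
      rw [Nat.cast_succ, Ordinal.opow_add, Ordinal.opow_one]
    have hy1 : (1 : Ordinal.{0}) ≤ y.1 := y.2.1
    have hy0 : y.1 ≠ 0 := (lt_of_lt_of_le zero_lt_one hy1).ne'
    change AccPt y (𝓟 (D K n)) ↔ _
    rw [acc_iff, hsucc]
    constructor
    · intro h
      -- y is a multiple of ω ^ n
      set c := y.1 / ω ^ (n : Ordinal.{0}) with hc
      have hdm := Ordinal.div_add_mod y.1 (ω ^ (n : Ordinal.{0}))
      rw [← hc] at hdm
      have hmod : y.1 % ω ^ (n : Ordinal.{0}) = 0 := by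
        by_contra hne
        have hlt : ω ^ (n : Ordinal.{0}) * c < y.1 := by
          conv_rhs => rw [← hdm]
          exact lt_add_of_pos_right _ (pos_iff_ne_zero.2 hne)
        obtain ⟨a, haD, h1, h2⟩ := h _ hlt
        rw [ih] at haD
        obtain ⟨d, hd⟩ := haD
        rw [hd] at h1 h2
        have h3 : c < d := lt_of_mul_lt_mul_left h1 zero_le
        have h4 : ω ^ (n : Ordinal.{0}) * Order.succ c ≤ ω ^ (n : Ordinal.{0}) * d :=
          mul_le_mul_right (Order.succ_le_of_lt h3) _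
        have h5 := Ordinal.lt_mul_succ_div y.1 hωn
        exact absurd (h5.trans_le (hc ▸ h4)) (not_lt.2 h2.le)
      rw [hmod, add_zero] at hdm
      have hlim : Order.IsSuccPrelimit c := by
        rw [Order.isSuccPrelimit_iff_succ_ne]
        intro c' hc'
        have hlt : ω ^ (n : Ordinal.{0}) * c' < y.1 := by
          rw [← hdm, ← hc']
          exact mul_lt_mul_of_pos_left (Order.lt_succ c') (pos_iff_ne_zero.2 hωn)
        obtain ⟨a, haD, h1, h2⟩ := h _ hlt
        rw [ih] at haD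
        obtain ⟨d, hd⟩ := haD
        rw [hd] at h1 h2
        rw [← hdm, ← hc'] at h2
        have h3 : c' < d := lt_of_mul_lt_mul_left h1 zero_le
        have h4 : d < Order.succ c' := lt_of_mul_lt_mul_left h2 zero_le
        exact absurd (Order.lt_succ_iff.1 h4) (not_le.2 h3)
      rw [Ordinal.isSuccPrelimit_iff_omega0_dvd] at hlim
      obtain ⟨e, he⟩ := hlim
      exact ⟨e, by rw [← hdm, he, mul_assoc]⟩
    · rintro ⟨c, hc⟩ z hz
      rw [mul_assoc] at hc
      set d := z / ω ^ (n : Ordinal.{0}) with hd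
      have hzlt : z < ω ^ (n : Ordinal.{0}) * Order.succ d := Ordinal.lt_mul_succ_div z hωn
      have hdlt : d < ω * c := by
        rw [hd, ← Ordinal.lt_mul_iff_div_lt hωn, ← hc]; exact hz
      have hlim : Order.IsSuccPrelimit (ω * c) := Ordinal.isSuccPrelimit_iff_omega0_dvd.2 ⟨c, rfl⟩
      have hsd : Order.succ d < ω * c := hlim.succ_lt hdlt
      have hlt : ω ^ (n : Ordinal.{0}) * Order.succ d < y.1 := by
        rw [hc]
        exact mul_lt_mul_of_pos_left hsd (pos_iff_ne_zero.2 hωn)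
      have h1 : (1 : Ordinal.{0}) ≤ ω ^ (n : Ordinal.{0}) * Order.succ d :=
        Order.one_le_iff_pos.2 (lt_of_le_of_lt zero_le hzlt)
      refine ⟨⟨ω ^ (n : Ordinal.{0}) * Order.succ d, h1, hlt.le.trans y.2.2⟩, ?_, hzlt, hlt⟩
      rw [ih]
      exact ⟨_, rfl⟩

lemma D_nonempty (n : ℕ) : (D K n).Nonempty := by
  refine ⟨⟨ω ^ ω, ?_, le_rfl⟩, ?_⟩
  · exact Order.one_le_iff_pos.2 (Ordinal.opow_pos _ omega0_pos)
  · rw [mem_D]
    exact Ordinal.opow_dvd_opow _ (Ordinal.natCast_lt_omega0 n).le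

lemma D_inter : (⋂ n, D K n).Finite := by
  apply Set.Finite.subset (Set.finite_singleton (⟨ω ^ ω, Order.one_le_iff_pos.2
    (Ordinal.opow_pos _ omega0_pos), le_rfl⟩ : K))
  intro y hy
  rw [mem_iInter] at hy
  rw [mem_singleton_iff]
  apply Subtype.ext
  by_contra hne
  have hlt : y.1 < ω ^ (ω : Ordinal.{0}) := lt_of_le_of_ne y.2.2 hne
  rw [Ordinal.lt_opow_of_isSuccLimit omega0_ne_zero isSuccLimit_omega0] at hlt
  obtain ⟨c, hc, hyc⟩ := hlt
  obtain ⟨n, rfl⟩ := Ordinal.lt_omega0.1 hc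
  have h1 := (mem_D n y).1 (hy n)
  have hy0 : y.1 ≠ 0 := (lt_of_lt_of_le zero_lt_one y.2.1).ne'
  exact absurd (Ordinal.le_of_dvd hy0 h1) (not_le.2 hyc)

/-- There is no linear isomorphic (in particular no isometric) embedding of `C[1, ω^ω]` into itself
whose image does stable phase retrieval. -/
theorem result : ¬ ∃ T : C(K, ℝ) → C(K, ℝ), IsIsomorphicEmbedding T ∧ DoesSPR (Set.range T) := by
  rintro ⟨T, ⟨hlin, c, d, hc, hT⟩, C, -, hC⟩
  let S : C(K, ℝ) →L[ℝ] C(K, ℝ) := (IsLinearMap.mk' T hlin).mkContinuous d (fun f => (hT f).2)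
  have hS : ∀ f, S f = T f := fun f => rfl
  refine no_spr D_nonempty D_inter S c hc (fun f => (hT f).1) C ?_
  intro f g
  rw [hS, hS]
  exact hC (T f) ⟨f, rfl⟩ (T g) ⟨g, rfl⟩

end Pool.Agent.Results.MP_abea68_an.NoSPREmbedding
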